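import Pool.Agent.MP_49fc99_mp.H40.Code

/-! For every `p` strictly between `1/2` and `1` there is an `(n, m, p)`-QRAC for which no single
POVM decodes every bit of every string with error at most `2 p (1 - p)`. -/

set_option autoImplicit false

namespace Pool.Agent.Results.MP_49fc99_mp.NoSimulDecoding

open Matrix Finset Pool.Agent.MP_49fc99_mp.H40
open scoped ComplexOrder

theorem trace_submatrix_equiv {α β : Type*} [Fintype α] [Fintype β] (e : α ≃ β)
    (M : Matrix β β ℂ) : (M.submatrix e e).trace = M.trace :=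
  Equiv.sum_comp e fun b => M b b

theorem result (p : ℝ) (hp1 : 1 / 2 < p) (hp2 : p < 1) :
    ∃ (n m : ℕ), 1 ≤ n ∧ 1 ≤ m ∧
      ∃ ρ : (Fin n → Bool) → Matrix (Fin (2 ^ m)) (Fin (2 ^ m)) ℂ,
        (∀ x, (ρ x).PosSemidef ∧ (ρ x).trace = 1) ∧
        (∀ i : Fin n, ∃ M : Bool → Matrix (Fin (2 ^ m)) (Fin (2 ^ m)) ℂ,
          (∀ b, (M b).PosSemidef) ∧ ∑ b, M b = 1 ∧
            ∀ (x : Fin n → Bool) (b : Bool), x i = b → p ≤ ((M b * ρ x).trace).re) ∧
        ∀ Q : (Fin n → Bool) → Matrix (Fin (2 ^ m)) (Fin (2 ^ m)) ℂ,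
          (∀ y, (Q y).PosSemidef) → ∑ y, Q y = 1 →
            ∃ (x : Fin n → Bool) (i : Fin n),
              2 * p * (1 - p) <
                ∑ y ∈ Finset.univ.filter (fun y : Fin n → Bool => y i ≠ x i),
                  ((Q y * ρ x).trace).re := by
  set q : ℝ := max p (3 / 4) with hq
  have q1 : 3 / 4 ≤ q := le_max_right _ _
  have q2 : p ≤ q := le_max_left _ _
  have q3 : q < 1 := max_lt hp2 (by norm_num)
  have gap : 0 < 2 * (1 - q) - 2 * p * (1 - p) := by
    rcases le_total p (3 / 4) with h | h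
    · rw [hq, max_eq_right h]; nlinarith
    · rw [hq, max_eq_left h]; nlinarith
  obtain ⟨k0, hk0⟩ := exists_nat_gt ((1 - q) / (2 * (1 - q) - 2 * p * (1 - p)))
  set k := k0 + 2 with hk
  have hkpos : 0 < k := by omega
  have hc : 2 * p * (1 - p) < 2 * (1 - q) - (1 - q) / k := by
    have h1 : (k0 : ℝ) < k := by rw [hk]; push_cast; linarith
    have h2 : (0 : ℝ) < k := by exact_mod_cast hkpos
    have h3 := hk0.trans h1
    rw [div_lt_iff₀ gap] at h3
    have h4 : (1 - q) / k < 2 * (1 - q) - 2 * p * (1 - p) := by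
      rw [div_lt_iff₀ h2]; linarith
    linarith
  have hn3 : 3 ≤ k ^ 2 := by rw [hk]; nlinarith
  obtain ⟨f, hf⟩ := exists_dir hn3
  let e : Fin (2 ^ (k ^ 2 + 1)) ≃ (Fin (k ^ 2) → Bool) ⊕ (Fin (k ^ 2) → Bool) :=
    Fintype.equivOfCardEq (by simp [pow_succ]; ring)
  refine ⟨k ^ 2, k ^ 2 + 1, by omega, by omega, fun x => (rho q (f x) x).submatrix e e, ?_, ?_, ?_⟩
  · intro x
    exact ⟨(rho_psd q1 q3.le _ _).submatrix e, by rw [trace_submatrix_equiv, rho_trace]⟩
  · intro i
    refine ⟨fun b => (meas i b).submatrix e e, fun b => (meas_psd i b).submatrix e, ?_, ?_⟩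
    · ext a b
      have := congrFun (congrFun (meas_sum i) (e a)) (e b)
      simpa [Matrix.sum_apply, Matrix.one_apply] using this
    · rintro x b rfl
      rw [Matrix.submatrix_mul_equiv, trace_submatrix_equiv, meas_success, Complex.ofReal_re]
      exact q2
  · intro Q hQ hs
    obtain ⟨x, i, h⟩ := exists_bad q1 q3.le hkpos rfl hc f hf
      (fun y => (Q y).submatrix e.symm e.symm) (fun y => (hQ y).submatrix e.symm) (by
        ext a b
        have := congrFun (congrFun hs (e.symm a)) (e.symm b)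
        simpa [Matrix.sum_apply, Matrix.one_apply] using this)
    refine ⟨x, i, h.trans_eq (Finset.sum_congr rfl fun y _ => ?_)⟩
    rw [← trace_submatrix_equiv e, ← Matrix.submatrix_mul_equiv _ _ _ e]
    simp

end Pool.Agent.Results.MP_49fc99_mp.NoSimulDecoding
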